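import Mathlib

/-!
# Integral dependence
-/

set_option autoImplicit false

namespace HorrI

/-- `x` is integral over the `S`-submodule `P` of the commutative `S`-algebra `A`: there is an
equation `x ^ n + c₁ x ^ (n - 1) + ⋯ + cₙ = 0` with `n ≥ 1` and `cᵢ ∈ P ^ i`.  (If `A = S` this is
integral dependence over an ideal.) -/
def IsIntegralOver {S A : Type*} [CommSemiring S] [CommRing A] [Algebra S A]
    (P : Submodule S A) (x : A) : Prop :=
  ∃ (n : ℕ) (c : ℕ → A), 0 < n ∧ (∀ i, c i ∈ P ^ i) ∧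
    x ^ n + ∑ i ∈ Finset.Icc 1 n, c i * x ^ (n - i) = 0

/-- The linear form `v₁ T₁ + ⋯ + v_b T_b` of the vector `v ∈ S ^ b`. -/
noncomputable def lin (S : Type*) [CommSemiring S] (b : ℕ) :
    (Fin b → S) →ₗ[S] MvPolynomial (Fin b) S :=
  ∑ a, (LinearMap.toSpanSingleton S _ (MvPolynomial.X a)).comp (LinearMap.proj a)

end HorrI
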