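import Pool.Agent.HorrInt.Ring
import Pool.Agent.Horrocks.Limit

/-!
# A module with a socle element which is not integral is a limit of modules with a simple point
-/

set_option autoImplicit false

namespace Pool.Agent.HorrInt

open MvPolynomial Horr Finset

universe u w

variable {k : Type u} [Field k] {m : ℕ} {F : Type u} [AddCommGroup F] [Module k F]
  [Module (MvPolynomial (Fin m) k) F] [IsScalarTower k (MvPolynomial (Fin m) k) F]
  {A : Type w} [CommRing A] [IsDomain A] [Algebra (MvPolynomial (Fin m) k) A]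

lemma smul_sub_mem {Ω : Submodule (MvPolynomial (Fin m) k) F} {u : F}
    (hu : ∀ j, (X j : MvPolynomial (Fin m) k) • u ∈ Ω) (s : MvPolynomial (Fin m) k) :
    s • u - constantCoeff s • u ∈ Ω := by
  induction s using MvPolynomial.induction_on with
  | C a =>
    have : (C a : MvPolynomial (Fin m) k) • u = a • u := by
      rw [← MvPolynomial.algebraMap_eq, algebraMap_smul]
    rw [this, constantCoeff_C, sub_self]
    exact Ω.zero_mem
  | add p q hp hq =>
    have : (p + q) • u - constantCoeff (p + q) • u =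
        (p • u - constantCoeff p • u) + (q • u - constantCoeff q • u) := by
      rw [map_add, add_smul, add_smul]; abel
    rw [this]
    exact Ω.add_mem hp hq
  | mul_X p j _ =>
    rw [map_mul, constantCoeff_X, mul_zero, zero_smul, sub_zero, mul_smul]
    exact Ω.smul_mem _ (hu j)

theorem family_main (hm : 0 < m) (Ω : Submodule (MvPolynomial (Fin m) k) F)
    [Module.Finite k (F ⧸ Ω)]
    (hnil : ∀ j, ∃ N : ℕ, ∀ z : F ⧸ Ω, (X j ^ N : MvPolynomial (Fin m) k) • z = 0)
    (hinj : Function.Injective (algebraMap (MvPolynomial (Fin m) k) A))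
    (e : F →ₗ[MvPolynomial (Fin m) k] A) (u : F)
    (hu : ∀ j, (X j : MvPolynomial (Fin m) k) • u ∈ Ω)
    (hint : NotInt Ω e u)
    (R : FreeRes (MvPolynomial (Fin m) k) (F ⧸ Ω)) (i : ℕ) : m.choose i ≤ R.rk i := by
  classical
  obtain ⟨ev, hev, hevs, hev0⟩ := exists_ev hint hu
  set S := MvPolynomial (Fin m) k with hS
  set K := FractionRing A with hK
  set y : K := algebraMap A K (e u) with hy
  have hy0 : y ≠ 0 := eu_ne hint
  set L : Submodule S F := Ω ⊔ Submodule.span S {u} with hL
  have hΩL : Ω ≤ L := le_sup_left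
  have hfin : Module.Finite k (F ⧸ L) := by
    refine Module.Finite.of_surjective
      ((Submodule.factor hΩL).restrictScalars k) ?_
    exact Submodule.factor_surjective hΩL
  set r := Module.finrank k (F ⧸ L) with hr
  let c : Module.Basis (Fin r) k (F ⧸ L) := Module.finBasis k (F ⧸ L)
  have hg : ∀ i, ∃ g : F, L.mkQ g = c i := fun i => Submodule.mkQ_surjective L (c i)
  choose g hg using hg
  have hrel : ∀ f : F, f - ∑ l, (c.repr (L.mkQ f) l) • g l ∈ L := by
    intro f
    refine (Submodule.Quotient.mk_eq_zero L).mp ?_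
    change L.mkQ (f - ∑ l, (c.repr (L.mkQ f) l) • g l) = 0
    rw [map_sub, map_sum, sub_eq_zero]
    conv_lhs => rw [← c.sum_repr (L.mkQ f)]
    refine sum_congr rfl fun l _ => ?_
    rw [← hg l]
    rfl
  have hrel2 : ∀ f : F, ∃ w ∈ Ω, ∃ s : S, f - ∑ l, (c.repr (L.mkQ f) l) • g l = w + s • u := by
    intro f
    obtain ⟨w, hw, v, hv, hwv⟩ := Submodule.mem_sup.mp (hrel f)
    obtain ⟨s, rfl⟩ := Submodule.mem_span_singleton.mp hv
    exact ⟨w, hw, s, hwv.symm⟩
  choose wf hwf sf hsf using hrel2
  -- the basis of the quotient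
  let v : Fin (r + 1) → F ⧸ Ω := Fin.cons (Ω.mkQ u) (fun l => Ω.mkQ (g l))
  have hu0 : u ∉ Ω := hint.notMem
  have hli : LinearIndependent k v := by
    rw [Fintype.linearIndependent_iff]
    intro a ha
    rw [Fin.sum_univ_succ] at ha
    simp only [v, Fin.cons_zero, Fin.cons_succ] at ha
    have h1 : a 0 • u + ∑ l, a (Fin.succ l) • g l ∈ Ω := by
      rw [← Submodule.ker_mkQ Ω, LinearMap.mem_ker, map_add, map_sum]
      exact ha
    have h2 : ∀ l, a (Fin.succ l) = 0 := by
      have h3 : L.mkQ (a 0 • u + ∑ l, a (Fin.succ l) • g l) = 0 := by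
        rw [← LinearMap.mem_ker, Submodule.ker_mkQ]
        exact hΩL h1
      have h4 : L.mkQ (a 0 • u) = 0 := by
        rw [← LinearMap.mem_ker, Submodule.ker_mkQ]
        have : a 0 • u = (C (a 0) : S) • u := by
          rw [← MvPolynomial.algebraMap_eq, algebraMap_smul]
        rw [this]
        exact L.smul_mem _ ((le_sup_right : _ ≤ L) (Submodule.mem_span_singleton_self u))
      rw [map_add, h4, zero_add, map_sum] at h3
      have h5 : ∑ l, a (Fin.succ l) • c l = 0 := by
        rw [← h3]
        refine sum_congr rfl fun l _ => ?_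
        rw [← hg l]
        rfl
      exact Fintype.linearIndependent_iff.mp c.linearIndependent _ h5
    have h0 : a 0 = 0 := by
      by_contra hne
      apply hu0
      have h6 : a 0 • u ∈ Ω := by
        have : ∑ l, a (Fin.succ l) • g l = 0 := by
          refine sum_eq_zero fun l _ => ?_
          rw [h2 l, zero_smul]
        rw [this, add_zero] at h1
        exact h1
      have h7 : (C (a 0)⁻¹ : S) • (a 0 • u) = u := by
        rw [← MvPolynomial.algebraMap_eq, algebraMap_smul, smul_smul, inv_mul_cancel₀ hne,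
          one_smul]
      rw [← h7]
      exact Ω.smul_mem _ h6
    intro i
    refine Fin.cases h0 h2 i
  have hred : ∀ f : F, Ω.mkQ f = constantCoeff (sf f) • Ω.mkQ u +
      ∑ l, (c.repr (L.mkQ f) l) • Ω.mkQ (g l) := by
    intro f
    have h1 : f = wf f + sf f • u + ∑ l, (c.repr (L.mkQ f) l) • g l := by
      rw [← hsf f]; abel
    have h2 : Ω.mkQ (wf f) = 0 := by
      rw [← LinearMap.mem_ker, Submodule.ker_mkQ]
      exact hwf f
    have h3 : Ω.mkQ (sf f • u) = Ω.mkQ (constantCoeff (sf f) • u) := by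
      rw [← sub_eq_zero, ← map_sub, ← LinearMap.mem_ker, Submodule.ker_mkQ]
      exact smul_sub_mem hu _
    conv_lhs => rw [h1]
    rw [map_add, map_add, h2, zero_add, h3, map_sum]
    rfl
  have hsp : ⊤ ≤ Submodule.span k (Set.range v) := by
    intro z _
    obtain ⟨f, rfl⟩ := Submodule.mkQ_surjective Ω z
    rw [hred f]
    refine Submodule.add_mem _ (Submodule.smul_mem _ _ (Submodule.subset_span ⟨0, rfl⟩))
      (Submodule.sum_mem _ fun l _ => Submodule.smul_mem _ _ (Submodule.subset_span ⟨l.succ, ?_⟩))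
    simp only [v, Fin.cons_succ]
  let bM : Module.Basis (Fin (r + 1)) k (F ⧸ Ω) := Module.Basis.mk hli hsp
  have hbM : ∀ q, bM q = v q := fun q => Module.Basis.mk_apply hli hsp q
  -- elements of the ring
  let fr : ∀ w : F, w ∈ Ω → frB Ω e u := fun w hw =>
    ⟨algebraMap A K (e w) / y, Algebra.subset_adjoin ⟨w, hw, rfl⟩⟩
  have hfr : ∀ w (hw : w ∈ Ω), ((fr w hw : frB Ω e u) : K) = algebraMap A K (e w) / y :=
    fun _ _ => rfl
  have hfr0 : ∀ w (hw : w ∈ Ω), ev (fr w hw) = 0 := fun w hw => hev0 _ ⟨w, hw, rfl⟩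
  let xx : Fin m → frB Ω e u := fun j => algebraMap S (frB Ω e u) (X j)
  have hxx : ∀ j, ev (xx j) = 0 := fun j => by
    change ev (algebraMap S (frB Ω e u) (X j)) = 0
    rw [hevs, constantCoeff_X]
  let β : F → frB Ω e u := fun f => fr (wf f) (hwf f) + algebraMap S (frB Ω e u) (sf f)
  have hβev : ∀ f, ev (β f) = constantCoeff (sf f) := by
    intro f
    change ev (fr (wf f) (hwf f) + algebraMap S (frB Ω e u) (sf f)) = _
    rw [map_add, hfr0 _ (hwf f), hevs, zero_add]
  let κ : k →+* frB Ω e u := cst Ω e u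
  have hκ : ∀ a, ev (κ a) = a := by
    intro a
    change ev (algebraMap S (frB Ω e u) (C a)) = a
    rw [hevs, constantCoeff_C]
  let θ : Fin r → K := fun l => algebraMap A K (e (g l)) / y
  have hek : ∀ (a : k) (f : F), algebraMap A K (e (a • f)) = (κ a : K) * algebraMap A K (e f) := by
    intro a f
    have : a • f = (C a : S) • f := by
      rw [← MvPolynomial.algebraMap_eq, algebraMap_smul]
    rw [this, map_smul, Algebra.smul_def, map_mul]
    rw [← IsScalarTower.algebraMap_apply]
    rfl
  have heS : ∀ (s : S) (f : F), algebraMap A K (e (s • f)) =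
      ((algebraMap S (frB Ω e u) s : frB Ω e u) : K) * algebraMap A K (e f) := by
    intro s f
    rw [map_smul, Algebra.smul_def, map_mul]
    rw [← IsScalarTower.algebraMap_apply]
    rfl
  have hβ : ∀ f, ((β f : frB Ω e u) : K) = algebraMap A K (e f) / y -
      ∑ l, (κ (c.repr (L.mkQ f) l) : K) * θ l := by
    intro f
    have h1 : f = wf f + sf f • u + ∑ l, (c.repr (L.mkQ f) l) • g l := by
      rw [← hsf f]; abel
    have h2 : algebraMap A K (e f) = algebraMap A K (e (wf f)) +
        ((algebraMap S (frB Ω e u) (sf f) : frB Ω e u) : K) * y +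
        ∑ l, (κ (c.repr (L.mkQ f) l) : K) * algebraMap A K (e (g l)) := by
      conv_lhs => rw [h1]
      rw [map_add, map_add, map_add, map_add, heS, map_sum, map_sum]
      congr 1
      exact sum_congr rfl fun l _ => hek _ _
    change algebraMap A K (e (wf f)) / y + ((algebraMap S (frB Ω e u) (sf f) : frB Ω e u) : K) = _
    rw [h2, add_div, add_div, mul_div_cancel_right₀ _ hy0, sum_div]
    have : ∑ l, (κ (c.repr (L.mkQ f) l) : K) * algebraMap A K (e (g l)) / y =
        ∑ l, (κ (c.repr (L.mkQ f) l) : K) * θ l := by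
      refine sum_congr rfl fun l _ => ?_
      rw [mul_div_assoc]
    rw [this]
    ring
  -- the structure constants
  let co : Fin m → Fin r → Fin r → k := fun j l q => c.repr (L.mkQ ((X j : S) • g q)) l
  -- the matrices
  let AA : Fin m → Matrix (Fin (r + 1)) (Fin (r + 1)) (frB Ω e u) := fun j =>
    Fin.cons (Fin.cons (xx j) (fun q => β ((X j : S) • g q)))
      (fun l => Fin.cons 0 (fun q => κ (co j l q)))
  have A00 : ∀ j, AA j 0 0 = xx j := fun _ => rfl
  have A0s : ∀ j q, AA j 0 (Fin.succ q) = β ((X j : S) • g q) := fun _ _ => rfl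
  have As0 : ∀ j l, AA j (Fin.succ l) 0 = 0 := fun _ _ => rfl
  have Ass : ∀ j l q, AA j (Fin.succ l) (Fin.succ q) = κ (co j l q) := fun _ _ _ => rfl
  let t : Fin (r + 1) → K := Fin.cons 1 θ
  have t0 : t 0 = 1 := rfl
  have ts : ∀ l, t (Fin.succ l) = θ l := fun _ => rfl
  have hrow : ∀ j q, ∑ p, t p * ((AA j p q : frB Ω e u) : K) = (xx j : K) * t q := by
    intro j q
    rw [Fin.sum_univ_succ]
    refine Fin.cases ?_ (fun q => ?_) q
    · simp only [A00, As0, t0, one_mul, Subalgebra.coe_zero, mul_zero, sum_const_zero, add_zero,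
        mul_one]
    · simp only [A0s, Ass, t0, ts, one_mul, hβ]
      rw [heS]
      have : ∑ l, θ l * (κ (co j l q) : K) =
          ∑ l, (κ (c.repr (L.mkQ ((X j : S) • g q)) l) : K) * θ l :=
        sum_congr rfl fun l _ => mul_comm _ _
      rw [this, mul_div_assoc]
      ring
  -- the structure constants commute
  have hco : ∀ i j l q, ∑ p, co i l p * co j p q = ∑ p, co j l p * co i p q := by
    have h1 : ∀ i j l q, ∑ p, co i l p * co j p q =
        c.repr ((X i : S) • (X j : S) • L.mkQ (g q)) l := by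
      intro i j l q
      have h2 : (X j : S) • L.mkQ (g q) = ∑ p, co j p q • c p := by
        rw [← map_smul]
        exact (c.sum_repr _).symm
      rw [h2, smul_sum, map_sum, Finsupp.finsetSum_apply]
      refine sum_congr rfl fun p _ => ?_
      rw [smul_comm, ← hg p, ← map_smul, map_smul, Finsupp.smul_apply, smul_eq_mul, mul_comm]
    intro i j l q
    rw [h1, h1, smul_comm]
  have hcomm : ∀ i j, AA i * AA j = AA j * AA i := by
    intro i j
    have hs : ∀ l q, (AA i * AA j) (Fin.succ l) q = (AA j * AA i) (Fin.succ l) q := by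
      intro l q
      rw [Matrix.mul_apply, Matrix.mul_apply, Fin.sum_univ_succ, Fin.sum_univ_succ]
      refine Fin.cases ?_ (fun q => ?_) q
      · simp only [As0, zero_mul, mul_zero, sum_const_zero]
      · simp only [As0, zero_mul, zero_add, Ass, ← map_mul, ← map_sum, hco i j l q]
    have hK : ∀ q, (((AA i * AA j) 0 q : frB Ω e u) : K) = (((AA j * AA i) 0 q : frB Ω e u) : K) := by
      intro q
      have key : ∀ i j, ∑ p, t p * (((AA i * AA j) p q : frB Ω e u) : K) =
          (xx i : K) * ((xx j : K) * t q) := by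
        intro i j
        have h1 : ∀ p, (((AA i * AA j) p q : frB Ω e u) : K) =
            ∑ s, ((AA i p s : frB Ω e u) : K) * ((AA j s q : frB Ω e u) : K) := by
          intro p
          rw [Matrix.mul_apply]
          push_cast
          rfl
        have h1' : ∀ p, t p * (((AA i * AA j) p q : frB Ω e u) : K) =
            ∑ s, t p * (((AA i p s : frB Ω e u) : K) * ((AA j s q : frB Ω e u) : K)) := by
          intro p
          rw [h1, Finset.mul_sum]
        rw [sum_congr rfl fun p _ => h1' p, sum_comm]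
        have h2 : ∀ s, ∑ p, t p * (((AA i p s : frB Ω e u) : K) * ((AA j s q : frB Ω e u) : K)) =
            (xx i : K) * (t s * ((AA j s q : frB Ω e u) : K)) := by
          intro s
          rw [← mul_assoc, ← hrow i s, sum_mul]
          exact sum_congr rfl fun p _ => by ring
        simp only [h2]
        rw [← mul_sum, hrow j q]
      have h3 := key i j
      have h4 := key j i
      rw [Fin.sum_univ_succ] at h3 h4
      rw [t0, one_mul] at h3 h4
      have h5 : ∑ l : Fin r, t (Fin.succ l) * (((AA i * AA j) (Fin.succ l) q : frB Ω e u) : K) =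
          ∑ l : Fin r, t (Fin.succ l) * (((AA j * AA i) (Fin.succ l) q : frB Ω e u) : K) :=
        sum_congr rfl fun l _ => by rw [hs]
      linear_combination h3 - h4 - h5
    ext p q
    refine Fin.cases ?_ (fun l => ?_) p
    · exact hK q
    · rw [hs l q]
  -- specialization
  have hA : ∀ j q, (X j : S) • bM q = ∑ p, ev (AA j p q) • bM p := by
    intro j q
    rw [Fin.sum_univ_succ]
    simp only [hbM]
    refine Fin.cases ?_ (fun q => ?_) q
    · simp only [A00, As0, hxx, map_zero, zero_smul, sum_const_zero, add_zero, v, Fin.cons_zero]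
      rw [← map_smul, ← LinearMap.mem_ker, Submodule.ker_mkQ]
      exact hu j
    · simp only [A0s, Ass, hβev, hκ, v, Fin.cons_zero, Fin.cons_succ]
      rw [← map_smul]
      exact hred _
  -- the denominators
  obtain ⟨N, hN⟩ := hnil ⟨0, hm⟩
  have hNg : ∀ f : F, (X ⟨0, hm⟩ ^ N : S) • f ∈ Ω := by
    intro f
    rw [← Submodule.ker_mkQ Ω, LinearMap.mem_ker, map_smul]
    exact hN _
  let yy : Fin (r + 1) → frB Ω e u := Fin.cons (algebraMap S (frB Ω e u) (X ⟨0, hm⟩ ^ N))
    (fun l => fr ((X ⟨0, hm⟩ ^ N : S) • g l) (hNg _))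
  have hyyK : ∀ p, ((yy p : frB Ω e u) : K) =
      ((algebraMap S (frB Ω e u) (X ⟨0, hm⟩ ^ N) : frB Ω e u) : K) * t p := by
    intro p
    refine Fin.cases ?_ (fun l => ?_) p
    · rw [t0, mul_one]; rfl
    · rw [ts]
      change algebraMap A K (e _) / y = _
      rw [heS, mul_div_assoc]
  refine limit_main m (r + 1) hnil bM ev hev AA hcomm hA xx (Pi.single 0 1) yy ?_ ?_ ?_ R i
  · intro j
    ext p
    rw [Matrix.mulVec_single_one]
    refine Fin.cases ?_ (fun l => ?_) p
    · simp [Matrix.col_apply, A00]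
    · simp [Matrix.col_apply, As0]
  · intro j
    ext q
    have h1 : ((Matrix.vecMul yy (AA j) q : frB Ω e u) : K) =
        ∑ p, ((yy p : frB Ω e u) : K) * ((AA j p q : frB Ω e u) : K) := by
      rw [Matrix.vecMul, dotProduct]
      push_cast
      rfl
    rw [h1, Pi.smul_apply, smul_eq_mul, Subalgebra.coe_mul, hyyK q]
    simp only [hyyK]
    have h2 : ∑ p, ((algebraMap S (frB Ω e u) (X ⟨0, hm⟩ ^ N) : frB Ω e u) : K) * t p *
        ((AA j p q : frB Ω e u) : K) =
        ((algebraMap S (frB Ω e u) (X ⟨0, hm⟩ ^ N) : frB Ω e u) : K) *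
          ∑ p, t p * ((AA j p q : frB Ω e u) : K) := by
      rw [mul_sum]
      exact sum_congr rfl fun p _ => by ring
    rw [h2, hrow]
    ring
  · rw [dotProduct_single, mul_one]
    change algebraMap S (frB Ω e u) (X ⟨0, hm⟩ ^ N) ≠ 0
    intro h
    have h1 : algebraMap S K (X ⟨0, hm⟩ ^ N) = 0 := by
      have := congrArg (fun z : frB Ω e u => (z : K)) h
      exact this
    rw [IsScalarTower.algebraMap_apply S A K] at h1
    have h2 : algebraMap S A (X ⟨0, hm⟩ ^ N) = 0 := by
      apply IsFractionRing.injective A K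
      rw [h1, map_zero]
    have h3 : (X ⟨0, hm⟩ ^ N : S) = 0 := hinj (by rw [h2, map_zero])
    exact pow_ne_zero N (X_ne_zero _) h3

end Pool.Agent.HorrInt
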