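import Mathlib

/-!
# The ring `S[Ω / u]` for an element `u` which is not integral over `Ω`
-/

set_option autoImplicit false

namespace Pool.Agent.HorrInt

open MvPolynomial

universe u v w

variable {k : Type u} [Field k] {m : ℕ} {F : Type v} [AddCommGroup F]
  [Module (MvPolynomial (Fin m) k) F] {A : Type w} [CommRing A] [IsDomain A]
  [Algebra (MvPolynomial (Fin m) k) A]

/-- The fractions `e w / e u`, `w ∈ Ω`. -/
def frs (Ω : Submodule (MvPolynomial (Fin m) k) F) (e : F →ₗ[MvPolynomial (Fin m) k] A) (u : F) :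
    Set (FractionRing A) :=
  {x | ∃ w ∈ Ω, x = algebraMap A (FractionRing A) (e w) / algebraMap A (FractionRing A) (e u)}

/-- The ring generated by the fractions. -/
noncomputable abbrev frB (Ω : Submodule (MvPolynomial (Fin m) k) F)
    (e : F →ₗ[MvPolynomial (Fin m) k] A) (u : F) :
    Subalgebra (MvPolynomial (Fin m) k) (FractionRing A) :=
  Algebra.adjoin (MvPolynomial (Fin m) k) (frs Ω e u)

/-- The ideal generated by the fractions. -/
noncomputable def frI (Ω : Submodule (MvPolynomial (Fin m) k) F)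
    (e : F →ₗ[MvPolynomial (Fin m) k] A) (u : F) : Ideal (frB Ω e u) :=
  Ideal.span {x | (x : FractionRing A) ∈ frs Ω e u}

variable {Ω : Submodule (MvPolynomial (Fin m) k) F} {e : F →ₗ[MvPolynomial (Fin m) k] A} {u : F}

/-- `e u` is not integral over `e Ω`, in homogeneous form: for no `D` is `(e u) ^ (D + 1)` in
`(e Ω) (e Ω + S (e u)) ^ D`. -/
def NotInt (Ω : Submodule (MvPolynomial (Fin m) k) F)
    (e : F →ₗ[MvPolynomial (Fin m) k] A) (u : F) : Prop :=
  ∀ D : ℕ, (e u) ^ (D + 1) ∉
    Ω.map e * (Ω.map e ⊔ Submodule.span (MvPolynomial (Fin m) k) {e u}) ^ D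

omit [IsDomain A] in
lemma NotInt.notMem (hint : NotInt Ω e u) : u ∉ Ω := by
  intro h
  apply hint 0
  rw [zero_add, pow_one, pow_zero, mul_one]
  exact Submodule.mem_map_of_mem h

omit [IsDomain A] in
lemma NotInt.ne (hint : NotInt Ω e u) : e u ≠ 0 := by
  intro h
  apply hint 0
  rw [h, zero_add, pow_one]
  exact Submodule.zero_mem _

omit [IsDomain A] in
lemma eu_ne (hint : NotInt Ω e u) : algebraMap A (FractionRing A) (e u) ≠ 0 := by
  intro h
  apply hint.ne
  apply IsFractionRing.injective A (FractionRing A)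
  rw [h, map_zero]

lemma mem_frB (hint : NotInt Ω e u) {x : FractionRing A} (hx : x ∈ frB Ω e u) :
    ∃ D : ℕ, ∃ a ∈ (Ω.map e ⊔ Submodule.span (MvPolynomial (Fin m) k) {e u}) ^ D,
      x * algebraMap A (FractionRing A) (e u) ^ D = algebraMap A (FractionRing A) a := by
  have hy0 := eu_ne hint
  set P := Ω.map e with hP
  set Q := P ⊔ Submodule.span (MvPolynomial (Fin m) k) {e u} with hQ
  have huQ : e u ∈ Q := (le_sup_right : _ ≤ Q) (Submodule.mem_span_singleton_self _)
  induction hx using Algebra.adjoin_induction with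
  | mem x hx =>
    obtain ⟨w, hw, rfl⟩ := hx
    refine ⟨1, e w, ?_, ?_⟩
    · rw [pow_one]
      exact (le_sup_left : P ≤ Q) (Submodule.mem_map_of_mem hw)
    · rw [pow_one, div_mul_cancel₀ _ hy0]
  | algebraMap s =>
    refine ⟨0, algebraMap _ A s, ?_, ?_⟩
    · rw [pow_zero]
      exact Submodule.algebraMap_mem s
    · rw [pow_zero, mul_one, ← IsScalarTower.algebraMap_apply]
  | add x z _ _ hx hz =>
    obtain ⟨D, a, ha, hxa⟩ := hx
    obtain ⟨E, b, hb, hzb⟩ := hz
    refine ⟨D + E, a * e u ^ E + b * e u ^ D, ?_, ?_⟩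
    · refine Submodule.add_mem _ ?_ ?_
      · rw [pow_add]
        exact Submodule.mul_mem_mul ha (Submodule.pow_mem_pow _ huQ _)
      · rw [add_comm D E, pow_add]
        exact Submodule.mul_mem_mul hb (Submodule.pow_mem_pow _ huQ _)
    · rw [map_add, map_mul, map_mul, ← hxa, ← hzb, map_pow, map_pow, pow_add]
      ring
  | mul x z _ _ hx hz =>
    obtain ⟨D, a, ha, hxa⟩ := hx
    obtain ⟨E, b, hb, hzb⟩ := hz
    refine ⟨D + E, a * b, ?_, ?_⟩
    · rw [pow_add]
      exact Submodule.mul_mem_mul ha hb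
    · rw [map_mul, ← hxa, ← hzb, pow_add]
      ring

lemma mem_frI (hint : NotInt Ω e u) {x : frB Ω e u} (hx : x ∈ frI Ω e u) :
    ∃ D : ℕ, ∃ a ∈ Ω.map e * (Ω.map e ⊔ Submodule.span (MvPolynomial (Fin m) k) {e u}) ^ D,
      (x : FractionRing A) * algebraMap A (FractionRing A) (e u) ^ (D + 1) =
        algebraMap A (FractionRing A) a := by
  have hy0 := eu_ne hint
  set P := Ω.map e with hP
  set Q := P ⊔ Submodule.span (MvPolynomial (Fin m) k) {e u} with hQ
  have huQ : e u ∈ Q := (le_sup_right : _ ≤ Q) (Submodule.mem_span_singleton_self _)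
  unfold frI at hx
  induction hx using Submodule.span_induction with
  | mem x hx =>
    obtain ⟨w, hw, hxw⟩ := hx
    refine ⟨0, e w, ?_, ?_⟩
    · rw [pow_zero, mul_one]
      exact Submodule.mem_map_of_mem hw
    · rw [zero_add, pow_one, hxw, div_mul_cancel₀ _ hy0]
  | zero => exact ⟨0, 0, Submodule.zero_mem _, by simp⟩
  | add x z _ _ hx hz =>
    obtain ⟨D, a, ha, hxa⟩ := hx
    obtain ⟨E, b, hb, hzb⟩ := hz
    refine ⟨D + E, a * e u ^ E + b * e u ^ D, ?_, ?_⟩
    · refine Submodule.add_mem _ ?_ ?_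
      · rw [pow_add, ← mul_assoc]
        exact Submodule.mul_mem_mul ha (Submodule.pow_mem_pow _ huQ _)
      · rw [add_comm D E, pow_add, ← mul_assoc]
        exact Submodule.mul_mem_mul hb (Submodule.pow_mem_pow _ huQ _)
    · rw [map_add, map_mul, map_mul, ← hxa, ← hzb, map_pow, map_pow, Subalgebra.coe_add]
      ring
  | smul b x _ hx =>
    obtain ⟨D, a, ha, hxa⟩ := hx
    obtain ⟨E, b', hb, hzb⟩ := mem_frB hint b.2
    refine ⟨D + E, a * b', ?_, ?_⟩
    · rw [pow_add, ← mul_assoc]
      exact Submodule.mul_mem_mul ha hb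
    · rw [map_mul, ← hxa, ← hzb, smul_eq_mul, Subalgebra.coe_mul]
      ring

lemma one_notMem (hint : NotInt Ω e u) : (1 : frB Ω e u) ∉ frI Ω e u := by
  intro h1
  obtain ⟨D, a, ha, h2⟩ := mem_frI hint h1
  rw [Subalgebra.coe_one, one_mul, ← map_pow] at h2
  have h3 := IsFractionRing.injective A (FractionRing A) h2
  exact hint D (h3 ▸ ha)

/-- the coordinates lie in the ideal -/
lemma X_mem (hint : NotInt Ω e u) (hu : ∀ j, (X j : MvPolynomial (Fin m) k) • u ∈ Ω) (j : Fin m) :
    algebraMap (MvPolynomial (Fin m) k) (frB Ω e u) (X j) ∈ frI Ω e u := by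
  refine Ideal.subset_span ⟨(X j : MvPolynomial (Fin m) k) • u, hu j, ?_⟩
  have hy0 := eu_ne hint
  rw [map_smul, Algebra.smul_def, map_mul, mul_div_cancel_right₀ _ hy0]
  rw [← IsScalarTower.algebraMap_apply]
  rfl

lemma sub_const_mem (hint : NotInt Ω e u) (hu : ∀ j, (X j : MvPolynomial (Fin m) k) • u ∈ Ω)
    (s : MvPolynomial (Fin m) k) :
    algebraMap (MvPolynomial (Fin m) k) (frB Ω e u) (s - C (constantCoeff s)) ∈ frI Ω e u := by
  induction s using MvPolynomial.induction_on with
  | C a => simp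
  | add p q hp hq =>
    have : p + q - C (constantCoeff (p + q)) =
        (p - C (constantCoeff p)) + (q - C (constantCoeff q)) := by
      rw [map_add, map_add]; ring
    rw [this, map_add]
    exact Ideal.add_mem _ hp hq
  | mul_X p j _ =>
    have : p * X j - C (constantCoeff (p * X j)) = p * X j := by
      rw [map_mul, constantCoeff_X, mul_zero, map_zero, sub_zero]
    rw [this, map_mul]
    exact Ideal.mul_mem_left _ _ (X_mem hint hu j)

/-- The constants -/
noncomputable def cst (Ω : Submodule (MvPolynomial (Fin m) k) F)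
    (e : F →ₗ[MvPolynomial (Fin m) k] A) (u : F) : k →+* frB Ω e u :=
  (algebraMap (MvPolynomial (Fin m) k) (frB Ω e u)).comp C

lemma exists_const (hint : NotInt Ω e u) (hu : ∀ j, (X j : MvPolynomial (Fin m) k) • u ∈ Ω)
    (x : frB Ω e u) : ∃ c : k, x - cst Ω e u c ∈ frI Ω e u := by
  obtain ⟨x, hx⟩ := x
  induction hx using Algebra.adjoin_induction with
  | mem x hx =>
    refine ⟨0, ?_⟩
    rw [map_zero, sub_zero]
    exact Ideal.subset_span hx
  | algebraMap s =>
    refine ⟨constantCoeff s, ?_⟩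
    have := sub_const_mem hint hu s
    rw [map_sub] at this
    exact this
  | add x y hx hy ihx ihy =>
    obtain ⟨a, ha⟩ := ihx
    obtain ⟨b, hb⟩ := ihy
    refine ⟨a + b, ?_⟩
    have := Ideal.add_mem _ ha hb
    rw [map_add]
    convert this using 1
    ext
    simp only [Subalgebra.coe_sub, Subalgebra.coe_add]
    ring
  | mul x y hx hy ihx ihy =>
    obtain ⟨a, ha⟩ := ihx
    obtain ⟨b, hb⟩ := ihy
    refine ⟨a * b, ?_⟩
    have := Ideal.add_mem _ (Ideal.mul_mem_left _ (⟨x, hx⟩ : frB Ω e u) hb)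
      (Ideal.mul_mem_left _ (cst Ω e u b) ha)
    rw [map_mul]
    convert this using 1
    ext
    simp only [Subalgebra.coe_sub, Subalgebra.coe_add, Subalgebra.coe_mul]
    ring

theorem exists_ev (hint : NotInt Ω e u) (hu : ∀ j, (X j : MvPolynomial (Fin m) k) • u ∈ Ω) :
    ∃ ev : frB Ω e u →+* k, Function.Surjective ev ∧
      (∀ s : MvPolynomial (Fin m) k,
        ev (algebraMap (MvPolynomial (Fin m) k) (frB Ω e u) s) = constantCoeff s) ∧
      ∀ x : frB Ω e u, (x : FractionRing A) ∈ frs Ω e u → ev x = 0 := by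
  set q := Ideal.Quotient.mk (frI Ω e u) with hq
  have hnt : Nontrivial (frB Ω e u ⧸ frI Ω e u) := by
    refine Ideal.Quotient.nontrivial_iff.mpr fun h => one_notMem hint ?_
    rw [h]; trivial
  have hbij : Function.Bijective (q.comp (cst Ω e u)) := by
    refine ⟨RingHom.injective _, ?_⟩
    intro z
    obtain ⟨x, rfl⟩ := Ideal.Quotient.mk_surjective z
    obtain ⟨c, hc⟩ := exists_const hint hu x
    refine ⟨c, ?_⟩
    rw [RingHom.comp_apply, eq_comm]
    exact (Ideal.Quotient.mk_eq_mk_iff_sub_mem _ _).mpr hc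
  set E := RingEquiv.ofBijective _ hbij with hE
  refine ⟨(E.symm : (frB Ω e u ⧸ frI Ω e u) →+* k).comp q, ?_, ?_, ?_⟩
  · intro c
    refine ⟨cst Ω e u c, ?_⟩
    change E.symm (q (cst Ω e u c)) = c
    rw [RingEquiv.symm_apply_eq]
    rfl
  · intro s
    change E.symm (q _) = _
    rw [RingEquiv.symm_apply_eq]
    change q _ = q (cst Ω e u _)
    refine (Ideal.Quotient.mk_eq_mk_iff_sub_mem _ _).mpr ?_
    have := sub_const_mem hint hu s
    rw [map_sub] at this
    exact this
  · intro x hx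
    change E.symm (q _) = _
    rw [RingEquiv.symm_apply_eq, map_zero]
    exact Ideal.Quotient.eq_zero_iff_mem.mpr (Ideal.subset_span hx)

end Pool.Agent.HorrInt
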