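import Pool.Agent.HorrInt.Defs
import Pool.Agent.HorrInt.Ring

/-!
# Integral dependence and the homogeneous condition
-/

set_option autoImplicit false

namespace Pool.Agent.HorrInt

open HorrI Finset

section general

variable {S : Type*} {A : Type*} [CommRing S] [CommRing A] [Algebra S A]

/-- Elements of `P * (P + S x) ^ D` as polynomials in `x`. -/
lemma exists_poly (P : Submodule S A) (x : A) (D : ℕ) :
    ∀ a ∈ P * (P ⊔ Submodule.span S {x}) ^ D,
      ∃ c : ℕ → A, (∀ i, c i ∈ P ^ i) ∧ a = ∑ i ∈ Icc 1 (D + 1), c i * x ^ (D + 1 - i) := by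
  classical
  set Q := P ⊔ Submodule.span S {x} with hQ
  induction D with
  | zero =>
    intro a ha
    rw [pow_zero, mul_one] at ha
    refine ⟨fun i => if i = 1 then a else 0, ?_, ?_⟩
    · intro i
      by_cases hi : i = 1
      · subst hi
        simpa using ha
      · simp [hi]
    · simp
  | succ D ih =>
    intro a ha
    rw [pow_succ, ← mul_assoc] at ha
    refine Submodule.mul_induction_on ha ?_ ?_
    · intro y hy q hq
      obtain ⟨c, hc, rfl⟩ := ih y hy
      obtain ⟨p, hp, z, hz, rfl⟩ := Submodule.mem_sup.mp hq
      obtain ⟨s, rfl⟩ := Submodule.mem_span_singleton.mp hz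
      refine ⟨fun i => (if i ≤ D + 1 then s • c i else 0) +
        (if 2 ≤ i then c (i - 1) * p else 0), ?_, ?_⟩
      · intro i
        refine Submodule.add_mem _ ?_ ?_
        · split_ifs
          · exact Submodule.smul_mem _ _ (hc i)
          · exact Submodule.zero_mem _
        · split_ifs with hi
          · obtain ⟨j, rfl⟩ := Nat.exists_eq_add_of_le' hi
            have := Submodule.mul_mem_mul (hc (j + 1)) hp
            rw [← pow_succ] at this
            exact this
          · exact Submodule.zero_mem _
      · rw [mul_add, add_comm (_ * p)]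
        simp only [add_mul, sum_add_distrib]
        congr 1
        · rw [sum_Icc_succ_top (by omega : 1 ≤ D + 1 + 1), if_neg (by omega), zero_mul, add_zero,
            sum_mul]
          refine sum_congr rfl fun i hi => ?_
          rw [mem_Icc] at hi
          rw [if_pos hi.2, show D + 1 + 1 - i = (D + 1 - i) + 1 by omega, pow_succ,
            Algebra.smul_def, Algebra.smul_def]
          ring
        · rw [sum_mul]
          have h1 : ∑ i ∈ Icc 1 (D + 1 + 1),
              (if 2 ≤ i then c (i - 1) * p else 0) * x ^ (D + 1 + 1 - i) =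
              ∑ i ∈ Icc 2 (D + 1 + 1), c (i - 1) * p * x ^ (D + 1 + 1 - i) := by
            rw [← sum_Ioc_add_eq_sum_Icc (by omega : 1 ≤ D + 1 + 1), if_neg (by omega), zero_mul,
              add_zero]
            refine sum_congr ?_ fun i hi => ?_
            · ext i; simp only [mem_Ioc, mem_Icc]; omega
            · rw [mem_Icc] at hi
              rw [if_pos (by omega)]
          rw [h1]
          refine sum_bij' (fun i _ => i + 1) (fun i _ => i - 1) ?_ ?_ ?_ ?_ ?_
          · intro i hi; rw [mem_Icc] at hi ⊢; omega
          · intro i hi; rw [mem_Icc] at hi ⊢; omega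
          · intro i hi; omega
          · intro i hi; rw [mem_Icc] at hi; omega
          · intro i hi
            rw [mem_Icc] at hi
            rw [Nat.add_sub_cancel, show D + 1 + 1 - (i + 1) = D + 1 - i by omega]
            ring
    · intro y z hy hz
      obtain ⟨c, hc, rfl⟩ := hy
      obtain ⟨c', hc', rfl⟩ := hz
      refine ⟨fun i => c i + c' i, fun i => Submodule.add_mem _ (hc i) (hc' i), ?_⟩
      simp only [add_mul, sum_add_distrib]

lemma integral_of_mem (P : Submodule S A) (x : A) (D : ℕ)
    (h : x ^ (D + 1) ∈ P * (P ⊔ Submodule.span S {x}) ^ D) : IsIntegralOver P x := by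
  obtain ⟨c, hc, h1⟩ := exists_poly P x D _ h
  refine ⟨D + 1, fun i => - c i, by omega, fun i => Submodule.neg_mem _ (hc i), ?_⟩
  simp only [neg_mul, sum_neg_distrib]
  rw [← h1]
  exact add_neg_cancel _

lemma lin_apply (b : ℕ) (v : Fin b → S) : lin S b v = ∑ a, v a • MvPolynomial.X a := by
  simp [lin]

lemma lin_injective (b : ℕ) : Function.Injective (lin S b) := by
  rw [← LinearMap.ker_eq_bot, LinearMap.ker_eq_bot']
  intro v hv
  ext a
  have h := congrArg (MvPolynomial.coeff (Finsupp.single a 1)) hv
  rw [lin_apply, MvPolynomial.coeff_sum, MvPolynomial.coeff_zero] at h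
  rw [Finset.sum_eq_single a] at h
  · simpa using h
  · intro c _ hca
    rw [MvPolynomial.coeff_smul, MvPolynomial.coeff_X, if_neg, smul_zero]
    intro h
    exact hca ((Finsupp.single_left_injective one_ne_zero) h)
  · intro h
    exact absurd (mem_univ a) h

end general

end Pool.Agent.HorrInt
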