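import Mathlib

/-!
# Socle elements
-/

set_option autoImplicit false

namespace Pool.Agent.HorrInt

open MvPolynomial

lemma exists_socle {k : Type*} [Field k] {m : ℕ} {F : Type*} [AddCommGroup F]
    [Module (MvPolynomial (Fin m) k) F] (Ω : Submodule (MvPolynomial (Fin m) k) F) (hΩ : Ω ≠ ⊤)
    (hnil : ∀ j, ∃ N : ℕ, ∀ z : F, (X j ^ N : MvPolynomial (Fin m) k) • z ∈ Ω) :
    ∃ u, u ∉ Ω ∧ ∀ j, (X j : MvPolynomial (Fin m) k) • u ∈ Ω := by
  classical
  have key : ∀ s : Finset (Fin m), ∃ u, u ∉ Ω ∧ ∀ j ∈ s, (X j : MvPolynomial (Fin m) k) • u ∈ Ω := by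
    intro s
    induction s using Finset.induction_on with
    | empty =>
      obtain ⟨u, hu⟩ := SetLike.exists_not_mem_of_ne_top Ω hΩ
      exact ⟨u, hu, by simp⟩
    | insert a s _ ih =>
      obtain ⟨u, hu, hus⟩ := ih
      obtain ⟨N, hN⟩ := hnil a
      have hex : ∃ N : ℕ, (X a ^ N : MvPolynomial (Fin m) k) • u ∈ Ω := ⟨N, hN u⟩
      have h1 := Nat.find_spec hex
      have h2 : Nat.find hex ≠ 0 := by
        intro h0
        rw [h0, pow_zero, one_smul] at h1
        exact hu h1
      obtain ⟨n, hn⟩ := Nat.exists_eq_succ_of_ne_zero h2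
      refine ⟨(X a ^ n : MvPolynomial (Fin m) k) • u, ?_, ?_⟩
      · exact Nat.find_min hex (by omega)
      · intro j hj
        rw [Finset.mem_insert] at hj
        rcases hj with rfl | hj
        · rw [smul_smul, ← pow_succ']
          rw [hn] at h1
          exact h1
        · rw [smul_comm]
          exact Ω.smul_mem _ (hus j hj)
  obtain ⟨u, hu, h⟩ := key Finset.univ
  exact ⟨u, hu, fun j => h j (Finset.mem_univ j)⟩

end Pool.Agent.HorrInt
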