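import Pool.Agent.HorrInt.Val
import Pool.Agent.HorrInt.Family
import Pool.Agent.HorrInt.Socle

/-!
# Horrocks' inequalities for modules with a socle element which is not integral
-/

set_option autoImplicit false

namespace Pool.Agent.HorrInt

open HorrI Horr Finset MvPolynomial

universe u

variable {k : Type u} [Field k]

theorem main_notInt (m b : ℕ) (Ω : Submodule (MvPolynomial (Fin m) k) (Fin b → MvPolynomial (Fin m) k))
    [Module.Finite k ((Fin b → MvPolynomial (Fin m) k) ⧸ Ω)]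
    (hnil : ∀ j, ∃ N : ℕ, ∀ z : (Fin b → MvPolynomial (Fin m) k) ⧸ Ω,
      (X j ^ N : MvPolynomial (Fin m) k) • z = 0)
    (u : Fin b → MvPolynomial (Fin m) k)
    (hu : ∀ j, (X j : MvPolynomial (Fin m) k) • u ∈ Ω)
    (hint : NotInt Ω (lin (MvPolynomial (Fin m) k) b) u)
    (R : FreeRes (MvPolynomial (Fin m) k) ((Fin b → MvPolynomial (Fin m) k) ⧸ Ω)) (i : ℕ) :
    m.choose i ≤ R.rk i := by
  rcases Nat.eq_zero_or_pos m with rfl | hm
  · cases i with
    | succ i => simp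
    | zero =>
      rw [Nat.choose_zero_right]
      by_contra hlt
      have h0 : R.rk 0 = 0 := by omega
      apply hint.notMem
      have h1 : ∀ x : Fin (R.rk 0) → MvPolynomial (Fin 0) k, x = 0 := by
        intro x
        ext a
        exact absurd a.2 (by omega)
      obtain ⟨x, hx⟩ := R.aug_surjective (Ω.mkQ u)
      rw [h1 x, map_zero] at hx
      rw [← Submodule.ker_mkQ Ω, LinearMap.mem_ker, hx]
  · exact family_main hm Ω hnil (MvPolynomial.C_injective _ _)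
      (lin (MvPolynomial (Fin m) k) b) u hu hint R i

lemma notInt_of_integrallyClosed (m b : ℕ)
    (Ω : Submodule (MvPolynomial (Fin m) k) (Fin b → MvPolynomial (Fin m) k))
    (hnil : ∀ j, ∃ N : ℕ, ∀ z : (Fin b → MvPolynomial (Fin m) k) ⧸ Ω,
      (X j ^ N : MvPolynomial (Fin m) k) • z = 0)
    (hΩ : Ω ≠ ⊤) (hic : ∀ v, IsIntegralOver (Ω.map (lin _ b)) (lin _ b v) → v ∈ Ω) :
    ∃ u : Fin b → MvPolynomial (Fin m) k,
        (∀ j, (X j : MvPolynomial (Fin m) k) • u ∈ Ω) ∧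
          ¬ IsIntegralOver (Ω.map (lin _ b)) (lin _ b u) := by
  obtain ⟨u, hu, h⟩ := exists_socle Ω hΩ (fun j => by
    obtain ⟨N, hN⟩ := hnil j
    refine ⟨N, fun z => ?_⟩
    rw [← Submodule.ker_mkQ Ω, LinearMap.mem_ker, map_smul]
    exact hN _)
  exact ⟨u, h, fun h' => hu (hic u h')⟩

lemma exists_of_ideal (m b : ℕ)
    (Ω' : Submodule (MvPolynomial (Fin m) k) (Fin b → MvPolynomial (Fin m) k))
    (J : Ideal (MvPolynomial (Fin m) k))
    (hnil : ∀ j, ∃ N : ℕ, ∀ z : (Fin b → MvPolynomial (Fin m) k) ⧸ (J • Ω'),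
      (X j ^ N : MvPolynomial (Fin m) k) • z = 0)
    (hJ : J ≠ ⊤) (hic : ∀ f, IsIntegralOver J f → f ∈ J) (hne : Ω' ≠ ⊥) :
    ∃ f, (∀ j, X j * f ∈ J) ∧ ¬ IsIntegralOver J f := by
  obtain ⟨w, _, hw0⟩ := Submodule.exists_mem_ne_zero_of_ne_bot hne
  obtain ⟨a, -⟩ : ∃ a, w a ≠ 0 := Function.ne_iff.mp hw0
  have hmem : ∀ z ∈ J • Ω', z a ∈ J := by
    intro z hz
    refine Submodule.smul_induction_on hz ?_ ?_
    · intro r hr n _
      exact J.mul_mem_right _ hr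
    · intro x y hx hy
      exact J.add_mem hx hy
  obtain ⟨f, hf, h⟩ := exists_socle J hJ (fun j => by
    obtain ⟨N, hN⟩ := hnil j
    refine ⟨N, fun z => ?_⟩
    have h1 : (X j ^ N : MvPolynomial (Fin m) k) • (Pi.single a z : Fin b → _) ∈ J • Ω' := by
      rw [← Submodule.ker_mkQ (J • Ω'), LinearMap.mem_ker, map_smul]
      exact hN _
    have h2 := hmem _ h1
    rw [Pi.smul_apply, Pi.single_eq_same] at h2
    exact h2)
  exact ⟨f, h, fun h' => hf (hic f h')⟩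

theorem main (m b : ℕ) (Ω : Submodule (MvPolynomial (Fin m) k) (Fin b → MvPolynomial (Fin m) k))
    [Module.Finite k ((Fin b → MvPolynomial (Fin m) k) ⧸ Ω)]
    (hnil : ∀ j, ∃ N : ℕ, ∀ z : (Fin b → MvPolynomial (Fin m) k) ⧸ Ω,
      (X j ^ N : MvPolynomial (Fin m) k) • z = 0)
    (h : (∃ u : Fin b → MvPolynomial (Fin m) k,
          (∀ j, (X j : MvPolynomial (Fin m) k) • u ∈ Ω) ∧
          ¬ IsIntegralOver (Ω.map (lin _ b)) (lin _ b u)) ∨
      (Ω ≠ ⊤ ∧ ∀ v, IsIntegralOver (Ω.map (lin _ b)) (lin _ b v) → v ∈ Ω) ∨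
      (∃ (J : Ideal (MvPolynomial (Fin m) k))
        (Ω' : Submodule (MvPolynomial (Fin m) k) (Fin b → MvPolynomial (Fin m) k)),
        Ω = J • Ω' ∧ Ω' ≠ ⊥ ∧
          ((∃ f, (∀ j, X j * f ∈ J) ∧ ¬ IsIntegralOver J f) ∨
            (J ≠ ⊤ ∧ ∀ f, IsIntegralOver J f → f ∈ J))))
    (R : FreeRes (MvPolynomial (Fin m) k) ((Fin b → MvPolynomial (Fin m) k) ⧸ Ω)) (i : ℕ) :
    m.choose i ≤ R.rk i := by
  have key1 : (∃ u : Fin b → MvPolynomial (Fin m) k,
      (∀ j, (X j : MvPolynomial (Fin m) k) • u ∈ Ω) ∧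
      ¬ IsIntegralOver (Ω.map (lin _ b)) (lin _ b u)) → m.choose i ≤ R.rk i := by
    rintro ⟨u, hu, hint⟩
    exact main_notInt m b Ω hnil u hu (notInt_of hint) R i
  rcases h with h | ⟨hΩ, hic⟩ | ⟨J, Ω', rfl, hne, h⟩
  · exact key1 h
  · exact key1 (notInt_of_integrallyClosed m b Ω hnil hΩ hic)
  · have h' : ∃ f, (∀ j, X j * f ∈ J) ∧ ¬ IsIntegralOver J f := by
      rcases h with h | ⟨hJ, hic⟩
      · exact h
      · exact exists_of_ideal m b Ω' J hnil hJ hic hne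
    obtain ⟨f, hJ, hf⟩ := h'
    obtain ⟨u₂, hu₂, hint⟩ := notInt_smul (lin_injective b) J f
      (notInt_ideal (A := MvPolynomial (Fin b) (MvPolynomial (Fin m) k))
        (MvPolynomial.C_injective _ _) J f hf) Ω' (IsNoetherian.noetherian Ω') hne
    refine main_notInt m b _ hnil (f • u₂) ?_ hint R i
    intro j
    rw [smul_smul]
    exact Submodule.smul_mem_smul (hJ j) hu₂

end Pool.Agent.HorrInt
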