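import Pool.Agent.HorrInt.Main

/-!
# Horrocks' inequalities for modules with a socle element which is not integral

Let `S = k[X_1, …, X_m]`, `k` any field, and let `Ω ⊆ S^b` be a submodule such that `M = S^b / Ω`
has finite dimension over `k` and every variable acts nilpotently on `M`.  Suppose that one of the
following holds.

1. Some `u ∈ S^b` with `X_j u ∈ Ω` for all `j` (a socle element of `M`) is not integral over `Ω`.
2. `M ≠ 0` and `Ω` is integrally closed in `S^b` (for `b = 1`: `Ω` is an integrally closed ideal).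
3. `Ω = J Ω'` where `Ω' ≠ 0` is any submodule of `S^b` and `J` is an ideal such that some `f` with
   `X_j f ∈ J` for all `j` is not integral over `J`, or `J ≠ S` is integrally closed; for instance
   `Ω = (X_1, …, X_m) Ω'`.

Then in every resolution of `M` by free modules of finite rank, in particular in the minimal one,
the `i`-th free module has rank at least `m.choose i`.

Integral dependence of `v ∈ S^b` over `Ω` is, as usual, integral dependence of the linear form
`∑ v_a T_a` of `S[T_1, …, T_b]` over the `S`-module of the linear forms of `Ω`; for `b = 1` this is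
integral dependence over an ideal.
-/

open MvPolynomial Horr HorrI

universe u

theorem Pool.Agent.Results.MP_e2ce73_al.SocleNotIntegral.result
    {k : Type u} [Field k] (m b : ℕ)
    (Ω : Submodule (MvPolynomial (Fin m) k) (Fin b → MvPolynomial (Fin m) k))
    -- the module `M = S^b / Ω` is of finite dimension over `k`
    [Module.Finite k ((Fin b → MvPolynomial (Fin m) k) ⧸ Ω)]
    -- the variables act nilpotently on it
    (hnil : ∀ j, ∃ N : ℕ, ∀ z : (Fin b → MvPolynomial (Fin m) k) ⧸ Ω,
      (X j ^ N : MvPolynomial (Fin m) k) • z = 0)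
    -- 1. some socle element of `M` is not integral over `Ω`,
    (h : (∃ u : Fin b → MvPolynomial (Fin m) k,
          (∀ j, (X j : MvPolynomial (Fin m) k) • u ∈ Ω) ∧
          ¬ IsIntegralOver (Ω.map (lin _ b)) (lin _ b u)) ∨
      -- 2. or `Ω ≠ S^b` is integrally closed,
      (Ω ≠ ⊤ ∧ ∀ v, IsIntegralOver (Ω.map (lin _ b)) (lin _ b v) → v ∈ Ω) ∨
      -- 3. or `Ω = J Ω'` with `Ω' ≠ 0` and an ideal `J` with the property 1 or 2
      (∃ (J : Ideal (MvPolynomial (Fin m) k))
        (Ω' : Submodule (MvPolynomial (Fin m) k) (Fin b → MvPolynomial (Fin m) k)),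
        Ω = J • Ω' ∧ Ω' ≠ ⊥ ∧
          ((∃ f, (∀ j, X j * f ∈ J) ∧ ¬ IsIntegralOver J f) ∨
            (J ≠ ⊤ ∧ ∀ f, IsIntegralOver J f → f ∈ J))))
    -- any free resolution of `M`
    (F : FreeRes (MvPolynomial (Fin m) k) ((Fin b → MvPolynomial (Fin m) k) ⧸ Ω)) (i : ℕ) :
    m.choose i ≤ F.rk i :=
  Pool.Agent.HorrInt.main m b Ω hnil h F i
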