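import Pool.Agent.HorrInt.Integral

/-!
# Products
-/

set_option autoImplicit false

namespace Pool.Agent.HorrInt

open HorrI Finset MvPolynomial

universe u v w

variable {k : Type u} [Field k] {m : ℕ} {F : Type v} [AddCommGroup F]
  [Module (MvPolynomial (Fin m) k) F] {A : Type w} [CommRing A] [IsDomain A]
  [Algebra (MvPolynomial (Fin m) k) A]

variable {Ω : Submodule (MvPolynomial (Fin m) k) F} {e : F →ₗ[MvPolynomial (Fin m) k] A} {u : F}

omit [IsDomain A] in
lemma notInt_of (h : ¬ IsIntegralOver (Ω.map e) (e u)) : NotInt Ω e u :=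
  fun D hD => h (integral_of_mem _ _ D hD)

lemma exists_valuation (hint : NotInt Ω e u) :
    ∃ V : ValuationSubring (FractionRing A),
      (∀ s : MvPolynomial (Fin m) k,
        V.valuation (algebraMap (MvPolynomial (Fin m) k) (FractionRing A) s) ≤ 1) ∧
      ∀ w ∈ Ω, V.valuation (algebraMap A (FractionRing A) (e w)) <
        V.valuation (algebraMap A (FractionRing A) (e u)) := by
  have hy0 := eu_ne hint
  let I : Ideal (frB Ω e u).toSubring := frI Ω e u
  have hI : I ≠ ⊤ := by
    intro h
    apply one_notMem hint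
    change (1 : (frB Ω e u).toSubring) ∈ I
    rw [h]
    trivial
  obtain ⟨V, hV, hVI⟩ := Ideal.image_subset_nonunits_valuationSubring I hI
  refine ⟨V, ?_, ?_⟩
  · intro s
    rw [ValuationSubring.valuation_le_one_iff]
    exact hV ((frB Ω e u).algebraMap_mem s)
  · intro w hw
    have h1 : (algebraMap A (FractionRing A) (e w) / algebraMap A (FractionRing A) (e u)) ∈
        V.nonunits := by
      apply hVI
      refine ⟨⟨_, Algebra.subset_adjoin ⟨w, hw, rfl⟩⟩, ?_, rfl⟩
      exact Ideal.subset_span ⟨w, hw, rfl⟩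
    rw [ValuationSubring.mem_nonunits_iff, map_div₀, div_lt_one₀] at h1
    · exact h1
    · rw [zero_lt_iff]
      exact (Valuation.ne_zero_iff _).mpr hy0

omit [IsDomain A] in
lemma notInt_ideal (hinj : Function.Injective (algebraMap (MvPolynomial (Fin m) k) A))
    (J : Ideal (MvPolynomial (Fin m) k)) (f : MvPolynomial (Fin m) k)
    (h : ¬ IsIntegralOver J f) : NotInt J (Algebra.linearMap (MvPolynomial (Fin m) k) A) f := by
  intro D hD
  apply h
  refine integral_of_mem J f D ?_
  have h1 : (Algebra.ofId (MvPolynomial (Fin m) k) A).toLinearMap (f ^ (D + 1)) ∈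
      Submodule.map (Algebra.ofId (MvPolynomial (Fin m) k) A).toLinearMap
        (J * (J ⊔ Submodule.span _ {f}) ^ D) := by
    rw [Submodule.map_mul, Submodule.map_pow, Submodule.map_sup, Submodule.map_span,
      Set.image_singleton, AlgHom.toLinearMap_apply, AlgHom.toLinearMap_apply,
      map_pow (Algebra.ofId _ A) f (D + 1)]
    exact hD
  obtain ⟨a, ha, h2⟩ := h1
  have h3 : a = f ^ (D + 1) := hinj h2
  rw [← h3]
  exact ha

/-- The product `J Ω'` -/
lemma notInt_smul (he : Function.Injective e) (J : Ideal (MvPolynomial (Fin m) k))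
    (f : MvPolynomial (Fin m) k)
    (hJ : NotInt J (Algebra.linearMap (MvPolynomial (Fin m) k) A) f)
    (Ω' : Submodule (MvPolynomial (Fin m) k) F) (hfg : Ω'.FG) (hne : Ω' ≠ ⊥) :
    ∃ u₂ ∈ Ω', NotInt (J • Ω') e (f • u₂) := by
  classical
  obtain ⟨V, hV1, hV2⟩ := exists_valuation hJ
  set v : F → V.ValueGroup := fun w => V.valuation (algebraMap A (FractionRing A) (e w)) with hv
  have hvadd : ∀ x y, v (x + y) ≤ max (v x) (v y) := by
    intro x y
    simp only [hv, map_add]
    exact Valuation.map_add _ _ _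
  have hvsmul : ∀ (s : MvPolynomial (Fin m) k) (x : F),
      v (s • x) = V.valuation (algebraMap _ (FractionRing A) s) * v x := by
    intro s x
    simp only [hv]
    rw [map_smul, Algebra.smul_def, map_mul, map_mul, ← IsScalarTower.algebraMap_apply]
  have hv0 : v 0 = 0 := by simp [hv]
  obtain ⟨G, hG⟩ := hfg
  have hGne : G.Nonempty := by
    rw [nonempty_iff_ne_empty]
    rintro rfl
    apply hne
    rw [← hG]
    simp
  obtain ⟨u₂, hu₂, hmax⟩ := G.exists_max_image v hGne
  have hu₂' : u₂ ∈ Ω' := by rw [← hG]; exact Submodule.subset_span hu₂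
  have hmax' : ∀ w ∈ Ω', v w ≤ v u₂ := by
    intro w hw
    rw [← hG] at hw
    induction hw using Submodule.span_induction with
    | mem x hx => exact hmax x hx
    | zero => rw [hv0]; exact zero_le
    | add x y _ _ hx hy => exact (hvadd x y).trans (max_le hx hy)
    | smul s x _ hx =>
      rw [hvsmul]
      exact mul_le_of_le_one_of_le (hV1 s) hx
  have hu₂0 : v u₂ ≠ 0 := by
    intro h0
    apply hne
    rw [eq_bot_iff]
    intro w hw
    have h1 := hmax' w hw
    rw [h0, le_zero_iff] at h1
    have h2 := (Valuation.zero_iff _).mp h1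
    have h3 : e w = 0 := by
      apply IsFractionRing.injective A (FractionRing A)
      rw [h2, map_zero]
    have h4 : w = 0 := he (by rw [h3, map_zero])
    rw [h4]
    exact Submodule.zero_mem _
  have hf0 : V.valuation (algebraMap _ (FractionRing A) f) ≠ 0 := by
    intro h
    have h1 := hV2 0 (Submodule.zero_mem _)
    rw [map_zero, map_zero, map_zero] at h1
    apply h1.ne'
    exact h
  have hlt : ∀ w ∈ J • Ω', v w < v (f • u₂) := by
    intro w hw
    refine Submodule.smul_induction_on hw ?_ ?_
    · intro r hr n hn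
      rw [hvsmul, hvsmul]
      have h1 := hV2 r hr
      exact mul_lt_mul_of_lt_of_le_of_nonneg_of_pos h1 (hmax' n hn) zero_le
        (zero_lt_iff.mpr hu₂0)
    · intro x y hx hy
      exact lt_of_le_of_lt (hvadd x y) (max_lt hx hy)
  refine ⟨u₂, hu₂', ?_⟩
  intro D hD
  -- all elements of the product have small valuation
  set g := v (f • u₂) with hg
  set vA : A → V.ValueGroup := fun a => V.valuation (algebraMap A (FractionRing A) a) with hvA
  have hP : ∀ p ∈ (J • Ω').map e, vA p < g := by
    rintro _ ⟨w, hw, rfl⟩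
    exact hlt w hw
  have hgpos : g ≠ 0 := by
    rw [hg, hvsmul]
    exact mul_ne_zero hf0 hu₂0
  have hAadd : ∀ x y, vA (x + y) ≤ max (vA x) (vA y) := by
    intro x y
    simp only [hvA, map_add]
    exact Valuation.map_add _ _ _
  have hAmul : ∀ x y, vA (x * y) = vA x * vA y := by
    intro x y
    simp only [hvA, map_mul]
  have hQ : ∀ q ∈ (J • Ω').map e ⊔ Submodule.span (MvPolynomial (Fin m) k) {e (f • u₂)},
      vA q ≤ g := by
    intro q hq
    obtain ⟨p, hp, z, hz, rfl⟩ := Submodule.mem_sup.mp hq
    obtain ⟨s, rfl⟩ := Submodule.mem_span_singleton.mp hz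
    refine (hAadd _ _).trans (max_le (hP p hp).le ?_)
    rw [← map_smul]
    change v (s • (f • u₂)) ≤ g
    rw [hvsmul]
    exact mul_le_of_le_one_left' (hV1 s)
  have hQD : ∀ D : ℕ, ∀ q ∈ ((J • Ω').map e ⊔
      Submodule.span (MvPolynomial (Fin m) k) {e (f • u₂)}) ^ D, vA q ≤ g ^ D := by
    intro D
    induction D with
    | zero =>
      intro q hq
      rw [pow_zero] at hq ⊢
      obtain ⟨s, rfl⟩ := Submodule.mem_one.mp hq
      have := hV1 s
      rw [IsScalarTower.algebraMap_apply _ A (FractionRing A)] at this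
      exact this
    | succ D ih =>
      intro q hq
      rw [pow_succ] at hq ⊢
      refine Submodule.mul_induction_on hq ?_ ?_
      · intro a ha b hb
        rw [hAmul]
        exact mul_le_mul' (ih a ha) (hQ b hb)
      · intro x y hx hy
        exact (hAadd x y).trans (max_le hx hy)
  have key : ∀ q ∈ (J • Ω').map e * ((J • Ω').map e ⊔
      Submodule.span (MvPolynomial (Fin m) k) {e (f • u₂)}) ^ D, vA q < g * g ^ D := by
    intro q hq
    refine Submodule.mul_induction_on hq ?_ ?_
    · intro a ha b hb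
      rw [hAmul]
      exact mul_lt_mul_of_lt_of_le_of_nonneg_of_pos (hP a ha) (hQD D b hb) zero_le
        (zero_lt_iff.mpr (pow_ne_zero _ hgpos))
    · intro x y hx hy
      exact lt_of_le_of_lt (hAadd x y) (max_lt hx hy)
  have h1 := key _ hD
  apply h1.ne
  rw [← pow_succ', hg]
  simp only [hvA, hv, map_pow]

end Pool.Agent.HorrInt
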